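import Pool.Agent.Lib.MP_449609_pr.Low

set_option autoImplicit false

open Classical

namespace Pool.Agent.Results.MP_449609_pr.Rapid

/-- Transition matrix of the orbit-sampling (Burnside) process: from `a` choose `g` uniformly in
the stabiliser of `a`, then `b` uniformly among the points fixed by `g`. -/
noncomputable def burnside (G Ω : Type) [Group G] [Fintype G] [MulAction G Ω] : Matrix Ω Ω ℝ :=
  Matrix.of fun a b => ∑ g : G,
    (if g ∈ MulAction.stabilizer G a then 1 / (Nat.card (MulAction.stabilizer G a) : ℝ) else 0) *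
    (if b ∈ MulAction.fixedBy Ω g then 1 / (Nat.card (MulAction.fixedBy Ω g) : ℝ) else 0)

/-- Simple graphs on `n` labelled vertices with all degrees at most `d`. -/
abbrev Omega (n d : ℕ) : Type := {X : SimpleGraph (Fin n) // ∀ v, X.degree v ≤ d}

open Pool.Agent.Lib.MP_449609_pr

theorem map_eq {n : ℕ} (σ : Equiv.Perm (Fin n)) (X : SimpleGraph (Fin n)) :
    X.map σ = act σ X := (X.comap_symm σ).symm

theorem deg_iff {n d : ℕ} (G : SimpleGraph (Fin n)) : (∀ v, G.degree v ≤ d) ↔ Deg d G := by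
  refine forall_congr' fun v => ?_
  rw [← SimpleGraph.card_neighborFinset_eq_degree, SimpleGraph.neighborFinset_eq_filter]
  rfl

/-- The symmetric group acts by relabelling vertices. -/
noncomputable instance relabel (n d : ℕ) : MulAction (Equiv.Perm (Fin n)) (Omega n d) where
  smul σ X := ⟨X.1.map σ, (deg_iff _).2 (map_eq σ X.1 ▸ ((deg_iff _).1 X.2).act σ)⟩
  one_smul X := Subtype.ext (map_eq 1 X.1)
  mul_smul σ τ X := Subtype.ext ((map_eq (σ * τ) X.1).trans
    ((congrArg (act σ) (map_eq τ X.1).symm).trans (map_eq σ _).symm))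

theorem smul_eq_iff {n d : ℕ} (σ : Equiv.Perm (Fin n)) (X : Omega n d) :
    σ • X = X ↔ IsAut X.1 σ := by
  rw [isAut_iff_act, Subtype.ext_iff, ← map_eq]
  rfl

theorem burnside_eq (n d : ℕ) : burnside (Equiv.Perm (Fin n)) (Omega n d) =
    Kmat fun (a : Omega n d) (b : Equiv.Perm (Fin n)) => IsAut a.1 b := by
  ext a b
  simp only [burnside, Kmat, Matrix.of_apply, Finset.sum_filter, Finset.mul_sum, wA, wB,
    MulAction.mem_stabilizer_iff, MulAction.mem_fixedBy, Nat.card_eq_fintype_card,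
    Fintype.card_subtype, smul_eq_iff]
  refine Finset.sum_congr rfl fun g _ => ?_
  by_cases h1 : IsAut a.1 g <;> by_cases h2 : IsAut b.1 g <;> simp [h1, h2]

theorem result : ∀ d : ℕ, ∃ c k : ℕ, ∀ n : ℕ, ∃ π : Omega n d → ℝ,
    (∀ y, 0 ≤ π y) ∧ ∑ y, π y = 1 ∧
    Matrix.vecMul π (burnside (Equiv.Perm (Fin n)) (Omega n d)) = π ∧
    ∀ ε : ℝ, 0 < ε → ε ≤ 1 → ∀ (x : Omega n d) (t : ℕ),
      (c : ℝ) * (n + 1) ^ k * (1 + Real.log ε⁻¹) ≤ t →
      (1 / 2 : ℝ) * ∑ y, |(burnside (Equiv.Perm (Fin n)) (Omega n d) ^ t) x y - π y| ≤ ε := by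
  intro d
  obtain ⟨c, k, h⟩ := poinc_main d
  refine ⟨2 * (c + 1), k + 2, fun n => ?_⟩
  rw [burnside_eq]
  set r := fun (a : Omega n d) (b : Equiv.Perm (Fin n)) => IsAut a.1 b
  have hA : ∀ a, 0 < wA r a := fun a => by
    unfold wA
    exact_mod_cast Finset.card_pos.2 ⟨1, by simp [r, IsAut.one]⟩
  have hZ : 0 < ∑ a, wA r a := Finset.sum_pos (fun a _ => hA a) ⟨⟨⊥, by simp⟩, Finset.mem_univ _⟩
  refine ⟨fun y => wA r y / ∑ a, wA r a, fun y => div_nonneg (hA y).le hZ.le, ?_, ?_,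
    fun ε h0 h1 x t ht => ?_⟩
  · rw [← Finset.sum_div, div_self hZ.ne']
  · ext y
    have := mean_step r hA fun a => if a = y then 1 else 0
    simp only [Matrix.mulVec, dotProduct, mul_ite, mul_one, mul_zero, Finset.sum_ite_eq',
      Finset.mem_univ, if_true] at this
    simp only [Matrix.vecMul, dotProduct, div_mul_eq_mul_div, ← Finset.sum_div, this]
  · have e1 : (1 : ℝ) ≤ (n + 1) ^ k := one_le_pow₀ (by simp)
    have hc : (0 : ℝ) ≤ c := by positivity
    have hn : (0 : ℝ) ≤ n := by positivity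
    have l0 : 0 ≤ Real.log ε⁻¹ := Real.log_nonneg ((one_le_inv₀ h0).2 h1)
    have l1 : Real.log (2 * ε)⁻¹ ≤ Real.log ε⁻¹ :=
      Real.log_le_log (by positivity) (inv_anti₀ h0 (by linarith))
    refine tv_of_poinc_eps (Λ := (c + 1) * (n + 1) ^ k) (by nlinarith)
      ((h n).mono (by nlinarith)) t h0 (le_trans ?_ ht) x
    push_cast
    calc _ ≤ (c + 1 : ℝ) * (n + 1) ^ k * (2 * (n + 1) ^ 2 * (1 + Real.log ε⁻¹)) := by
          gcongr
          nlinarith [mul_nonneg (mul_nonneg hn hn) l0, mul_nonneg hn l0]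
      _ = _ := by ring

end Pool.Agent.Results.MP_449609_pr.Rapid
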